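import Pool.Agent.Helper77.CTProof

namespace Pool.Agent.Results.MP_9704e3_al.InfiniteWidth

open Pool.Agent.Helper77.CT

/-- `CT_∞` does not have finite width with respect to the set `H` of all horizontal class
transpositions: for every `n` there is an element of `CT_∞` (which can be taken in
`CT_{4 (n + 1)}`) that is not a product of `n` or fewer horizontal class transpositions. -/
theorem result : ∀ n : ℕ, ∃ g ∈ CTinf, g ∈ CT (4 * (n + 1)) ∧
    ∀ l : List (Equiv.Perm ℤ), (∀ s ∈ l, s ∈ H) → l.length ≤ n → l.prod ≠ g :=
  Pool.Agent.Helper77.CT.main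

end Pool.Agent.Results.MP_9704e3_al.InfiniteWidth
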